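import Pool.Agent.MP_927be3_nt.Up.E

namespace Pool.Agent.Results.MP_927be3_nt.UpperExplicit

open Pool.Agent.MP_927be3_nt

theorem result (k j d : ℕ) (hk : 5 ≤ k) (hj1 : 1 ≤ j) (hj : j < k)
    (h1 : 7 * k * (k + 1) + 6 ≤ 10 * d)
    (h2 : 2 * ((k : ℤ) - j) * (k * (k + 1) - d) < 3 * (d - min (2 ^ j) (j * (j + 1)))) :
    Holds k d :=
  W.main1 k j d hk hj1 hj h1 h2

end Pool.Agent.Results.MP_927be3_nt.UpperExplicit
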